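import Mathlib

set_option autoImplicit false

/-!
# No four positive integers whose pairwise products plus one are all of the form `P^i Q^j`

The whole argument is by valuations.  `Ex p k n` says that `p^k` exactly divides `n`.
-/

namespace Pool.Agent.SDioph

/-- `p ^ k` exactly divides `n`. -/
def Ex (p : ℤ) (k : ℕ) (n : ℤ) : Prop := p ^ k ∣ n ∧ ¬ p ^ (k + 1) ∣ n

variable {p q : ℤ} {k l : ℕ} {x y : ℤ}

lemma Ex.unique (h : Ex p k x) (h' : Ex p l x) : k = l := by
  rcases lt_trichotomy k l with hlt | he | hlt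
  · exact absurd ((pow_dvd_pow p hlt).trans h'.1) h.2
  · exact he
  · exact absurd ((pow_dvd_pow p hlt).trans h.1) h'.2

lemma Ex.le_of_dvd (h : Ex p k x) (h' : p ^ l ∣ x) : l ≤ k := by
  by_contra hc
  exact h.2 ((pow_dvd_pow p (by omega)).trans h')

lemma Ex.sub_left (h : Ex p k x) (h' : p ^ (k + 1) ∣ y) : Ex p k (x - y) := by
  refine ⟨dvd_sub h.1 ((pow_dvd_pow p (Nat.le_succ k)).trans h'), fun hc => h.2 ?_⟩
  have := dvd_add hc h'
  simpa using this

lemma Ex.sub_right (h : Ex p k y) (h' : p ^ (k + 1) ∣ x) : Ex p k (x - y) := by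
  refine ⟨dvd_sub ((pow_dvd_pow p (Nat.le_succ k)).trans h') h.1, fun hc => h.2 ?_⟩
  have := dvd_sub h' hc
  simpa using this

lemma Ex.add_left (h : Ex p k x) (h' : p ^ (k + 1) ∣ y) : Ex p k (x + y) := by
  refine ⟨dvd_add h.1 ((pow_dvd_pow p (Nat.le_succ k)).trans h'), fun hc => h.2 ?_⟩
  have := dvd_sub hc h'
  simpa using this

lemma isCoprime_of_not_dvd (hp : Prime p) (h : ¬ p ∣ y) : IsCoprime p y :=
  (Prime.coprime_iff_not_dvd hp).2 h

lemma pow_dvd_of_pow_dvd_mul (hp : Prime p) (h : ¬ p ∣ y) (hd : p ^ k ∣ y * x) : p ^ k ∣ x :=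
  (IsCoprime.pow_left (isCoprime_of_not_dvd hp h)).dvd_of_dvd_mul_left hd

lemma Ex.mul_left (hp : Prime p) (hy : ¬ p ∣ y) (h : Ex p k x) : Ex p k (y * x) :=
  ⟨Dvd.dvd.mul_left h.1 y, fun hc => h.2 (pow_dvd_of_pow_dvd_mul hp hy hc)⟩

lemma Ex.of_mul_left (hp : Prime p) (hy : ¬ p ∣ y) (h : Ex p k (y * x)) : Ex p k x :=
  ⟨pow_dvd_of_pow_dvd_mul hp hy h.1, fun hc => h.2 (Dvd.dvd.mul_left hc y)⟩

lemma exists_ex (hp1 : 1 < p) (hx : 0 < x) : ∃ k, Ex p k x := by
  by_contra hc
  push Not at hc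
  have hall : ∀ k : ℕ, p ^ k ∣ x := by
    intro k
    induction k with
    | zero => simp
    | succ k ih =>
      by_contra hcc
      exact hc k ⟨ih, hcc⟩
  have h2 : ∀ k : ℕ, (k : ℤ) < p ^ k := by
    intro k
    have h3 : (k : ℤ) < 2 ^ k := by exact_mod_cast Nat.lt_two_pow_self
    have h4 : (2 : ℤ) ^ k ≤ p ^ k := pow_le_pow_left₀ (by norm_num) (by omega) k
    omega
  have h5 := Int.le_of_dvd hx (hall x.toNat)
  have h6 := h2 x.toNat
  have h7 : ((x.toNat : ℕ) : ℤ) = x := Int.toNat_of_nonneg hx.le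
  omega

lemma ex_fst (hp : Prime p) (hpq : ¬ p ∣ q) (i j : ℕ) : Ex p i (p ^ i * q ^ j) := by
  have h1 : ¬ p ∣ q ^ j := fun h => hpq (hp.dvd_of_dvd_pow h)
  refine ⟨Dvd.intro _ rfl, fun hc => h1 ?_⟩
  rw [pow_succ] at hc
  exact (mul_dvd_mul_iff_left (pow_ne_zero i hp.ne_zero)).1 hc

lemma ex_snd (hq : Prime q) (hqp : ¬ q ∣ p) (i j : ℕ) : Ex q j (p ^ i * q ^ j) := by
  rw [mul_comm]; exact ex_fst hq hqp j i

lemma not_dvd_of_dvd_mul_add_one (hp : Prime p) {a b : ℤ} (h : p ∣ a * b + 1) : ¬ p ∣ a := by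
  intro ha
  have h1 : p ∣ 1 := by
    have := dvd_sub h (ha.mul_right b)
    simpa using this
  exact hp.not_isUnit (isUnit_of_dvd_one h1)

/-- two numbers `x y + 1` and `x z + 1`: a common divisor divides `z - y` -/
lemma dvd_diff {m a b c : ℤ} (h1 : m ∣ a * c + 1) (h2 : m ∣ b * c + 1) : m ∣ b - a := by
  have h3 : m ∣ b * (a * c + 1) - a * (b * c + 1) := dvd_sub (h1.mul_left b) (h2.mul_left a)
  have h4 : b * (a * c + 1) - a * (b * c + 1) = b - a := by ring
  rwa [h4] at h3

/-- The core contradiction, for one of the two possible orderings of the exponents at the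
largest element. -/
theorem core {P Q : ℤ} (hP : Prime P) (hQ : Prime Q) (hPQ : ¬ P ∣ Q) (hQP : ¬ Q ∣ P)
    (hP1 : 1 < P) (hQ1 : 1 < Q) {a b c d : ℤ} (ha : 0 < a) (hab : a < b) (hbc : b < c)
    (hcd : c < d) {i1 i2 i3 i4 i5 i6 j1 j2 j3 j4 j5 j6 : ℕ}
    (h1 : a * b + 1 = P ^ i1 * Q ^ j1) (h2 : a * c + 1 = P ^ i2 * Q ^ j2)
    (h3 : a * d + 1 = P ^ i3 * Q ^ j3) (h4 : b * c + 1 = P ^ i4 * Q ^ j4)
    (h5 : b * d + 1 = P ^ i5 * Q ^ j5) (h6 : c * d + 1 = P ^ i6 * Q ^ j6)
    (h63 : i6 < i3) (h35 : i3 < i5) (g53 : j5 < j3) (g36 : j3 < j6)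
    (hlt : a * d + 1 < b * c) : False := by
  -- comparability gives divisibility
  have cmp : ∀ i j i' j' : ℕ, i ≤ i' → j ≤ j' → P ^ i * Q ^ j ∣ P ^ i' * Q ^ j' :=
    fun i j i' j' hi hj => mul_dvd_mul (pow_dvd_pow P hi) (pow_dvd_pow Q hj)
  have hb : 0 < b := by omega
  have hc : 0 < c := by omega
  have hd : 0 < d := by omega
  have hdbc : d < b * c := by nlinarith
  have hPdiv : ∀ i j : ℕ, 1 ≤ i → P ∣ P ^ i * Q ^ j := fun i j hi =>
    (dvd_pow_self P (by omega)).mul_right _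
  have hQdiv : ∀ i j : ℕ, 1 ≤ j → Q ∣ P ^ i * Q ^ j := fun i j hi =>
    (dvd_pow_self Q (by omega)).mul_left _
  -- non-divisibility
  have Pa : ¬ P ∣ a := not_dvd_of_dvd_mul_add_one hP (b := d) (by rw [h3]; exact hPdiv _ _ (by omega))
  have Pd : ¬ P ∣ d := not_dvd_of_dvd_mul_add_one hP (b := a)
    (by rw [mul_comm, h3]; exact hPdiv _ _ (by omega))
  have Pb : ¬ P ∣ b := not_dvd_of_dvd_mul_add_one hP (b := d) (by rw [h5]; exact hPdiv _ _ (by omega))
  have Qa : ¬ Q ∣ a := not_dvd_of_dvd_mul_add_one hQ (b := d) (by rw [h3]; exact hQdiv _ _ (by omega))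
  have Qd : ¬ Q ∣ d := not_dvd_of_dvd_mul_add_one hQ (b := a)
    (by rw [mul_comm, h3]; exact hQdiv _ _ (by omega))
  have Qc : ¬ Q ∣ c := not_dvd_of_dvd_mul_add_one hQ (b := d) (by rw [h6]; exact hQdiv _ _ (by omega))
  -- exact valuations of the six numbers
  have e1 := ex_fst hP hPQ i1 j1
  have e2 := ex_fst hP hPQ i2 j2
  have e3 := ex_fst hP hPQ i3 j3
  have e4 := ex_fst hP hPQ i4 j4
  have e5 := ex_fst hP hPQ i5 j5
  have e6 := ex_fst hP hPQ i6 j6
  have f1 := ex_snd hQ hQP i1 j1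
  have f2 := ex_snd hQ hQP i2 j2
  have f3 := ex_snd hQ hQP i3 j3
  have f4 := ex_snd hQ hQP i4 j4
  have f5 := ex_snd hQ hQP i5 j5
  have f6 := ex_snd hQ hQP i6 j6
  rw [← h1] at e1 f1
  rw [← h2] at e2 f2
  rw [← h3] at e3 f3
  rw [← h4] at e4 f4
  rw [← h5] at e5 f5
  rw [← h6] at e6 f6
  have up : ∀ {r : ℤ} {m n : ℕ} {z : ℤ}, Ex r m z → n < m → r ^ (n + 1) ∣ z :=
    fun h hn => (pow_dvd_pow _ hn).trans h.1
  -- differences
  have vba : Ex P i3 (b - a) := by
    apply Ex.of_mul_left hP Pd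
    have := e3.sub_right (up e5 h35)
    have h : b * d + 1 - (a * d + 1) = d * (b - a) := by ring
    rwa [h] at this
  have vca : Ex P i6 (c - a) := by
    apply Ex.of_mul_left hP Pd
    have := e6.sub_left (up e3 h63)
    have h : c * d + 1 - (a * d + 1) = d * (c - a) := by ring
    rwa [h] at this
  have vcb : Ex P i6 (c - b) := by
    apply Ex.of_mul_left hP Pd
    have := e6.sub_left (up e5 (h63.trans h35))
    have h : c * d + 1 - (b * d + 1) = d * (c - b) := by ring
    rwa [h] at this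
  have wba : Ex Q j5 (b - a) := by
    apply Ex.of_mul_left hQ Qd
    have := f5.sub_left (up f3 g53)
    have h : b * d + 1 - (a * d + 1) = d * (b - a) := by ring
    rwa [h] at this
  have wca : Ex Q j3 (c - a) := by
    apply Ex.of_mul_left hQ Qd
    have := f3.sub_right (up f6 g36)
    have h : c * d + 1 - (a * d + 1) = d * (c - a) := by ring
    rwa [h] at this
  have wcb : Ex Q j5 (c - b) := by
    apply Ex.of_mul_left hQ Qd
    have := f5.sub_right (up f6 (g53.trans g36))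
    have h : c * d + 1 - (b * d + 1) = d * (c - b) := by ring
    rwa [h] at this
  have v21 : Ex P i6 (a * c + 1 - (a * b + 1)) := by
    have h : a * c + 1 - (a * b + 1) = a * (c - b) := by ring
    rw [h]; exact vcb.mul_left hP Pa
  have w21 : Ex Q j5 (a * c + 1 - (a * b + 1)) := by
    have h : a * c + 1 - (a * b + 1) = a * (c - b) := by ring
    rw [h]; exact wcb.mul_left hQ Qa
  have v41 : Ex P i6 (b * c + 1 - (a * b + 1)) := by
    have h : b * c + 1 - (a * b + 1) = b * (c - a) := by ring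
    rw [h]; exact vca.mul_left hP Pb
  have w42 : Ex Q j5 (b * c + 1 - (a * c + 1)) := by
    have h : b * c + 1 - (a * c + 1) = c * (b - a) := by ring
    rw [h]; exact wba.mul_left hQ Qc
  -- incomparability facts
  have n24 : ¬ (a * c + 1 ∣ b * c + 1) := by
    intro h
    have := Int.le_of_dvd (by omega) (dvd_diff (dvd_refl (a * c + 1)) h)
    nlinarith
  have n42 : ¬ (b * c + 1 ∣ a * c + 1) := by
    intro h
    have := Int.le_of_dvd (by positivity) h
    nlinarith
  have n45 : ¬ (b * c + 1 ∣ b * d + 1) := by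
    intro h
    have h' : b * c + 1 ∣ d * b + 1 := by rwa [mul_comm d b]
    have := Int.le_of_dvd (by omega) (dvd_diff (a := c) (b := d) (c := b)
      (by rw [mul_comm c b]) h')
    omega
  have n54 : ¬ (b * d + 1 ∣ b * c + 1) := by
    intro h
    have := Int.le_of_dvd (by positivity) h
    nlinarith
  have n46 : ¬ (b * c + 1 ∣ c * d + 1) := by
    intro h
    have h' : b * c + 1 ∣ d * c + 1 := by rwa [mul_comm d c]
    have := Int.le_of_dvd (by omega) (dvd_diff (a := b) (b := d) (c := c) (dvd_refl _) h')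
    omega
  have n64 : ¬ (c * d + 1 ∣ b * c + 1) := by
    intro h
    have := Int.le_of_dvd (by positivity) h
    nlinarith
  have apos : 0 < a ^ 2 + 1 := by positivity
  obtain ⟨e, he⟩ := exists_ex hP1 apos
  obtain ⟨f, hf⟩ := exists_ex hQ1 apos
  have s1eq : a * b + 1 = a ^ 2 + 1 + a * (b - a) := by ring
  have s2eq : a * c + 1 = a ^ 2 + 1 + a * (c - a) := by ring
  rcases le_or_gt i3 e with hei | hei
  · -- Case II
    have k1 : P ^ i3 ∣ a * b + 1 := by
      rw [s1eq]; exact dvd_add ((pow_dvd_pow P hei).trans he.1) (vba.1.mul_left a)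
    have k2 : P ^ (i6 + 1) ∣ a * b + 1 := (pow_dvd_pow P h63).trans k1
    have k4 : i4 = i6 := by
      have := v41.add_left k2
      rw [sub_add_cancel] at this
      exact e4.unique this
    have k5 : i2 = i6 := by
      have := v21.add_left k2
      rw [sub_add_cancel] at this
      exact e2.unique this
    rcases le_total j2 j4 with hj | hj
    · apply n24
      rw [h2, h4]; exact cmp _ _ _ _ (by omega) hj
    · apply n42
      rw [h2, h4]; exact cmp _ _ _ _ (by omega) hj
  rcases le_or_gt j3 f with hfj | hfj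
  · -- Case III
    have k1 : Q ^ j3 ∣ a * c + 1 := by
      rw [s2eq]; exact dvd_add ((pow_dvd_pow Q hfj).trans hf.1) (wca.1.mul_left a)
    have k2 : Q ^ (j5 + 1) ∣ a * c + 1 := (pow_dvd_pow Q g53).trans k1
    have k4 : j4 = j5 := by
      have := w42.add_left k2
      rw [sub_add_cancel] at this
      exact f4.unique this
    rcases le_total i4 i5 with hi | hi
    · apply n45
      rw [h4, h5]; exact cmp _ _ _ _ hi (by omega)
    · apply n54
      rw [h4, h5]; exact cmp _ _ _ _ hi (by omega)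
  -- Case I
  have a1 : i1 = e := by
    refine e1.unique ?_
    rw [s1eq]
    exact he.add_left (((pow_dvd_pow P hei).trans vba.1).mul_left a)
  have b2 : j2 = f := by
    refine f2.unique ?_
    rw [s2eq]
    exact hf.add_left (((pow_dvd_pow Q hfj).trans wca.1).mul_left a)
  have hcop : IsCoprime P Q := isCoprime_of_not_dvd hP hPQ
  have hdvd : P ^ e * Q ^ f ∣ a ^ 2 + 1 :=
    IsCoprime.mul_dvd (IsCoprime.pow hcop) he.1 hf.1
  have hle : P ^ e * Q ^ f ≤ a ^ 2 + 1 := Int.le_of_dvd apos hdvd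
  have hPpos : ∀ n : ℕ, 0 < P ^ n := fun n => pow_pos (by omega) n
  have hQpos : ∀ n : ℕ, 0 < Q ^ n := fun n => pow_pos (by omega) n
  have b1 : f < j1 := by
    by_contra hcon
    have hh : Q ^ j1 ≤ Q ^ f := pow_le_pow_right₀ (by omega) (by omega)
    have hh2 : P ^ e * Q ^ j1 ≤ P ^ e * Q ^ f := mul_le_mul_of_nonneg_left hh (hPpos e).le
    rw [a1] at h1
    nlinarith
  have a2 : e < i2 := by
    by_contra hcon
    have hh : P ^ i2 ≤ P ^ e := pow_le_pow_right₀ (by omega) (by omega)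
    have hh2 : P ^ i2 * Q ^ f ≤ P ^ e * Q ^ f := mul_le_mul_of_nonneg_right hh (hQpos f).le
    rw [b2] at h2
    nlinarith
  have ee : e = i6 := by
    have := e1.sub_right (x := a * c + 1) (up e2 (by omega))
    rw [a1] at this
    exact this.unique v21
  have ff : f = j5 := by
    have := f2.sub_left (y := a * b + 1) (up f1 (by omega))
    rw [b2] at this
    exact this.unique w21
  have a1' : i1 = i6 := by omega
  have b2' : j2 = j5 := by omega
  have a4ge : i6 ≤ i4 := by
    have t1 : P ^ i6 ∣ b * c + 1 := by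
      have := dvd_add v41.1 (a1' ▸ e1.1)
      rwa [sub_add_cancel] at this
    exact e4.le_of_dvd t1
  have b4ge : j5 ≤ j4 := by
    have t1 : Q ^ j5 ∣ b * c + 1 := by
      have := dvd_add w42.1 (b2' ▸ f2.1)
      rwa [sub_add_cancel] at this
    exact f4.le_of_dvd t1
  have c46 : j4 < j6 := by
    by_contra hcon
    apply n64
    rw [h4, h6]; exact cmp _ _ _ _ a4ge (by omega)
  have a46 : i6 < i4 := by
    by_contra hcon
    apply n46
    rw [h4, h6]; exact cmp _ _ _ _ (by omega) (by omega)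
  have c45 : i4 < i5 := by
    by_contra hcon
    apply n54
    rw [h4, h5]; exact cmp _ _ _ _ (by omega) b4ge
  have b45 : j5 < j4 := by
    by_contra hcon
    apply n45
    rw [h4, h5]; exact cmp _ _ _ _ (by omega) (by omega)
  have a42 : i4 < i2 := by
    by_contra hcon
    apply n24
    rw [h2, h4]; exact cmp _ _ _ _ (by omega) (by omega)
  have Pc : ¬ P ∣ c := not_dvd_of_dvd_mul_add_one hP (b := b)
    (by rw [mul_comm, h4]; exact hPdiv _ _ (by omega))
  have Qb : ¬ Q ∣ b := not_dvd_of_dvd_mul_add_one hQ (b := c)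
    (by rw [h4]; exact hQdiv _ _ (by omega))
  have a43 : i4 = i3 := by
    have t1 := e4.sub_left (y := a * c + 1) (up e2 a42)
    have t2 : Ex P i3 (b * c + 1 - (a * c + 1)) := by
      have h : b * c + 1 - (a * c + 1) = c * (b - a) := by ring
      rw [h]; exact vba.mul_left hP Pc
    exact t1.unique t2
  have b34 : j3 < j4 := by
    by_contra hcon
    have t1 : b * c + 1 ∣ a * d + 1 := by
      rw [h4, h3]; exact cmp _ _ _ _ (by omega) (by omega)
    have := Int.le_of_dvd (by positivity) t1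
    omega
  have w41 : Ex Q j3 (b * c + 1 - (a * b + 1)) := by
    have h : b * c + 1 - (a * b + 1) = b * (c - a) := by ring
    rw [h]; exact wca.mul_left hQ Qb
  have b13 : j1 = j3 := by
    rcases lt_or_ge j1 j4 with hj | hj
    · exact (f1.sub_right (x := b * c + 1) (up f4 hj)).unique w41
    · exfalso
      have t1 : Q ^ (j3 + 1) ∣ b * c + 1 - (a * b + 1) :=
        dvd_sub (up f4 b34) (up f1 (by omega))
      exact w41.2 t1
  -- set up x and g
  obtain ⟨x, hx⟩ : ∃ x, i3 = i6 + x := ⟨i3 - i6, by omega⟩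
  obtain ⟨g, hg⟩ : ∃ g, j4 = j3 + g := ⟨j4 - j3, by omega⟩
  have hg1 : 1 ≤ g := by omega
  have hs1 : a * b + 1 = P ^ i6 * Q ^ j3 := by rw [h1, a1', b13]
  have hs3 : a * d + 1 = P ^ x * (a * b + 1) := by
    rw [h3, hs1, hx, pow_add]; ring
  have hs4 : b * c + 1 = P ^ x * Q ^ g * (a * b + 1) := by
    rw [h4, hs1, a43, hx, hg, pow_add, pow_add]; ring
  have hs1pos : 0 < a * b + 1 := by positivity
  -- Q divides P^x - 1
  have hQx : Q ∣ P ^ x - 1 := by
    have t1 : Ex Q j4 (c * (d - b)) := by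
      have := f4.sub_right (x := c * d + 1) (up f6 c46)
      have h : c * d + 1 - (b * c + 1) = c * (d - b) := by ring
      rwa [h] at this
    have t2 : Q ^ (j3 + 1) ∣ d - b :=
      (pow_dvd_pow Q b34).trans (t1.of_mul_left hQ Qc).1
    have t3 : a * (d - b) = (P ^ x - 1) * (P ^ i6 * Q ^ j3) := by
      have : a * (d - b) = (a * d + 1) - (a * b + 1) := by ring
      rw [this, hs3, ← hs1]; ring
    have t4 : Q ^ j3 * Q ∣ Q ^ j3 * ((P ^ x - 1) * P ^ i6) := by
      have := t2.mul_left a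
      rw [t3, pow_succ] at this
      have h : (P ^ x - 1) * (P ^ i6 * Q ^ j3) = Q ^ j3 * ((P ^ x - 1) * P ^ i6) := by ring
      rwa [h] at this
    have t5 := (mul_dvd_mul_iff_left (hQpos j3).ne').1 t4
    rcases hQ.dvd_or_dvd t5 with h | h
    · exact h
    · exact absurd (hQ.dvd_of_dvd_pow h) hQP
  -- the integers t and t'
  obtain ⟨t, ht⟩ : ∃ t : ℤ, t = (d - b) - b * (P ^ x - 1) := ⟨_, rfl⟩
  obtain ⟨t', ht'⟩ : ∃ t' : ℤ, t' = (c - a) - a * (P ^ x * Q ^ g - 1) := ⟨_, rfl⟩
  have hdb : d - b = t * (a * b + 1) := by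
    rw [ht]
    linear_combination (-b) * hs3
  have hca : c - a = t' * (a * b + 1) := by
    rw [ht']
    linear_combination (-a) * hs4
  have hat : a * t = P ^ x - 1 := by
    have : (a * t) * (a * b + 1) = (P ^ x - 1) * (a * b + 1) := by
      linear_combination (-a) * hdb + hs3
    exact mul_right_cancel₀ hs1pos.ne' this
  have hbt : b * t' = P ^ x * Q ^ g - 1 := by
    have : (b * t') * (a * b + 1) = (P ^ x * Q ^ g - 1) * (a * b + 1) := by
      linear_combination (-b) * hca + hs4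
    exact mul_right_cancel₀ hs1pos.ne' this
  have htpos : 0 < t := by
    by_contra hcon
    have : t * (a * b + 1) ≤ 0 := mul_nonpos_of_nonpos_of_nonneg (by omega) hs1pos.le
    omega
  have ht'pos : 0 < t' := by
    by_contra hcon
    have : t' * (a * b + 1) ≤ 0 := mul_nonpos_of_nonpos_of_nonneg (by omega) hs1pos.le
    omega
  have htt : 0 ≤ t - t' := by
    by_contra hcon
    have h' : t - t' ≤ -1 := by omega
    have : (t - t') * (a * b + 1) ≤ (-1) * (a * b + 1) :=
      mul_le_mul_of_nonneg_right h' hs1pos.le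
    have hab' : b ≤ a * b := by nlinarith
    have : (t - t') * (a * b + 1) = (d - b) - (c - a) := by rw [hdb, hca]; ring
    omega
  -- P^x divides t - t'
  have hPtt : P ^ x ∣ t - t' := by
    have r1 : P ^ i3 ∣ b * (d - c) := by
      have : b * (d - c) = (b * d + 1) - (b * c + 1) := by ring
      rw [this]
      exact dvd_sub ((pow_dvd_pow P h35.le).trans e5.1) (a43 ▸ e4.1)
    have r2 : P ^ i3 ∣ d - c := pow_dvd_of_pow_dvd_mul hP Pb r1
    have r3 : P ^ i3 ∣ (t - t') * (a * b + 1) := by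
      have : (t - t') * (a * b + 1) = (d - c) - (b - a) := by
        linear_combination (-1) * hdb + hca
      rw [this]; exact dvd_sub r2 vba.1
    rw [hs1, hx, pow_add] at r3
    have r4 : P ^ i6 * P ^ x ∣ P ^ i6 * (Q ^ j3 * (t - t')) := by
      have h : (t - t') * (P ^ i6 * Q ^ j3) = P ^ i6 * (Q ^ j3 * (t - t')) := by ring
      rwa [h] at r3
    have r5 := (mul_dvd_mul_iff_left (hPpos i6).ne').1 r4
    exact pow_dvd_of_pow_dvd_mul hP (fun h => hPQ (hP.dvd_of_dvd_pow h)) r5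
  have htlt : t - t' < P ^ x := by
    have : t ≤ a * t := by nlinarith
    omega
  have hteq : t - t' = 0 := Int.eq_zero_of_dvd_of_nonneg_of_lt htt htlt hPtt
  have hfin : (b - a) * t = P ^ x * (Q ^ g - 1) := by
    have : t' = t := by omega
    rw [this] at hbt
    linear_combination hbt - hat
  have hQt : Q ∣ t := by
    have : Q ∣ a * t := by rw [hat]; exact hQx
    rcases hQ.dvd_or_dvd this with h | h
    · exact absurd h Qa
    · exact h
  have hQf : Q ∣ P ^ x * (Q ^ g - 1) := by rw [← hfin]; exact hQt.mul_left _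
  rcases hQ.dvd_or_dvd hQf with h | h
  · exact hQP (hQ.dvd_of_dvd_pow h)
  · have h2 : Q ∣ Q ^ g := dvd_pow_self Q (by omega)
    have h3 : Q ∣ 1 := by
      have := dvd_sub h2 h
      simpa using this
    exact hQ.not_isUnit (isUnit_of_dvd_one h3)

/-- If three numbers have exponents ordered as `i1 >= i2 >= i3`, `j1 <= j2 <= j3`, then the
middle one is at most the product of the differences divisible by the two gcds. -/
lemma middle {P Q : ℤ} (hP : 0 < P) (hQ : 0 < Q) {i2 i3 j1 j2 : ℕ} {u v : ℤ}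
    (hu : 0 < u) (hv : 0 < v) (h1 : P ^ i2 * Q ^ j1 ∣ u) (h2 : P ^ i3 * Q ^ j2 ∣ v) :
    P ^ i2 * Q ^ j2 ≤ u * v := by
  have k1 := Int.le_of_dvd hu h1
  have k2 := Int.le_of_dvd hv h2
  have hPpos : ∀ n : ℕ, 0 < P ^ n := fun n => pow_pos hP n
  have hQpos : ∀ n : ℕ, 0 < Q ^ n := fun n => pow_pos hQ n
  have k3 : (P ^ i2 * Q ^ j1) * (P ^ i3 * Q ^ j2) ≤ u * v :=
    mul_le_mul k1 k2 (mul_pos (hPpos _) (hQpos _)).le hu.le
  have k4 : (P ^ i2 * Q ^ j1) * (P ^ i3 * Q ^ j2) = (P ^ i2 * Q ^ j2) * (P ^ i3 * Q ^ j1) := by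
    ring
  have k5 : 1 ≤ P ^ i3 * Q ^ j1 := mul_pos (hPpos _) (hQpos _)
  have k6 : 0 < P ^ i2 * Q ^ j2 := mul_pos (hPpos _) (hQpos _)
  nlinarith

/-- No four positive integers `a < b < c < d` have all `x y + 1` of the form `P^i Q^j`. -/
theorem no_quadruple {P Q : ℤ} (hP : Prime P) (hQ : Prime Q) (hPQ : ¬ P ∣ Q) (hQP : ¬ Q ∣ P)
    (hP1 : 1 < P) (hQ1 : 1 < Q) {a b c d : ℤ} (ha : 0 < a) (hab : a < b) (hbc : b < c)
    (hcd : c < d) {i1 i2 i3 i4 i5 i6 j1 j2 j3 j4 j5 j6 : ℕ}
    (h1 : a * b + 1 = P ^ i1 * Q ^ j1) (h2 : a * c + 1 = P ^ i2 * Q ^ j2)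
    (h3 : a * d + 1 = P ^ i3 * Q ^ j3) (h4 : b * c + 1 = P ^ i4 * Q ^ j4)
    (h5 : b * d + 1 = P ^ i5 * Q ^ j5) (h6 : c * d + 1 = P ^ i6 * Q ^ j6) : False := by
  have cmp : ∀ i j i' j' : ℕ, i ≤ i' → j ≤ j' → P ^ i * Q ^ j ∣ P ^ i' * Q ^ j' :=
    fun i j i' j' hi hj => mul_dvd_mul (pow_dvd_pow P hi) (pow_dvd_pow Q hj)
  have hb : 0 < b := by omega
  have hc : 0 < c := by omega
  have hd : 0 < d := by omega
  have hP0 : 0 < P := by omega
  have hQ0 : 0 < Q := by omega
  have n35 : ¬ (a * d + 1 ∣ b * d + 1) := by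
    intro h
    have := Int.le_of_dvd (by omega) (dvd_diff (dvd_refl _) h)
    nlinarith
  have n53 : ¬ (b * d + 1 ∣ a * d + 1) := by
    intro h
    have := Int.le_of_dvd (by positivity) h
    nlinarith
  have n36 : ¬ (a * d + 1 ∣ c * d + 1) := by
    intro h
    have := Int.le_of_dvd (by omega) (dvd_diff (dvd_refl _) h)
    nlinarith
  have n63 : ¬ (c * d + 1 ∣ a * d + 1) := by
    intro h
    have := Int.le_of_dvd (by positivity) h
    nlinarith
  have n56 : ¬ (b * d + 1 ∣ c * d + 1) := by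
    intro h
    have := Int.le_of_dvd (by omega) (dvd_diff (dvd_refl _) h)
    nlinarith
  have n65 : ¬ (c * d + 1 ∣ b * d + 1) := by
    intro h
    have := Int.le_of_dvd (by positivity) h
    nlinarith
  have o35 : (i3 < i5 ∧ j5 < j3) ∨ (i5 < i3 ∧ j3 < j5) := by
    rcases lt_or_ge i3 i5 with hi | hi
    · left
      refine ⟨hi, ?_⟩
      by_contra hcon
      exact n35 (by rw [h3, h5]; exact cmp _ _ _ _ hi.le (by omega))
    · rcases lt_or_ge j3 j5 with hj | hj
      · right
        refine ⟨?_, hj⟩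
        by_contra hcon
        exact n35 (by rw [h3, h5]; exact cmp _ _ _ _ (by omega) hj.le)
      · exact absurd (by rw [h3, h5]; exact cmp _ _ _ _ hi hj) n53
  have o36 : (i3 < i6 ∧ j6 < j3) ∨ (i6 < i3 ∧ j3 < j6) := by
    rcases lt_or_ge i3 i6 with hi | hi
    · left
      refine ⟨hi, ?_⟩
      by_contra hcon
      exact n36 (by rw [h3, h6]; exact cmp _ _ _ _ hi.le (by omega))
    · rcases lt_or_ge j3 j6 with hj | hj
      · right
        refine ⟨?_, hj⟩
        by_contra hcon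
        exact n36 (by rw [h3, h6]; exact cmp _ _ _ _ (by omega) hj.le)
      · exact absurd (by rw [h3, h6]; exact cmp _ _ _ _ hi hj) n63
  have o56 : (i5 < i6 ∧ j6 < j5) ∨ (i6 < i5 ∧ j5 < j6) := by
    rcases lt_or_ge i5 i6 with hi | hi
    · left
      refine ⟨hi, ?_⟩
      by_contra hcon
      exact n56 (by rw [h5, h6]; exact cmp _ _ _ _ hi.le (by omega))
    · rcases lt_or_ge j5 j6 with hj | hj
      · right
        refine ⟨?_, hj⟩
        by_contra hcon
        exact n56 (by rw [h5, h6]; exact cmp _ _ _ _ (by omega) hj.le)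
      · exact absurd (by rw [h5, h6]; exact cmp _ _ _ _ hi hj) n65
  -- common divisors divide differences
  have d35 : ∀ i j : ℕ, i ≤ i3 → i ≤ i5 → j ≤ j3 → j ≤ j5 → P ^ i * Q ^ j ∣ b - a := by
    intro i j x1 x2 x3 x4
    exact dvd_diff (c := d) (by rw [h3]; exact cmp _ _ _ _ x1 x3)
      (by rw [h5]; exact cmp _ _ _ _ x2 x4)
  have d36 : ∀ i j : ℕ, i ≤ i3 → i ≤ i6 → j ≤ j3 → j ≤ j6 → P ^ i * Q ^ j ∣ c - a := by
    intro i j x1 x2 x3 x4
    exact dvd_diff (c := d) (by rw [h3]; exact cmp _ _ _ _ x1 x3)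
      (by rw [h6]; exact cmp _ _ _ _ x2 x4)
  have d56 : ∀ i j : ℕ, i ≤ i5 → i ≤ i6 → j ≤ j5 → j ≤ j6 → P ^ i * Q ^ j ∣ c - b := by
    intro i j x1 x2 x3 x4
    exact dvd_diff (c := d) (by rw [h5]; exact cmp _ _ _ _ x1 x3)
      (by rw [h6]; exact cmp _ _ _ _ x2 x4)
  have pba : 0 < b - a := by omega
  have pca : 0 < c - a := by omega
  have pcb : 0 < c - b := by omega
  rcases o35 with ⟨x1, x2⟩ | ⟨x1, x2⟩
  · -- i3 < i5, j5 < j3
    rcases o36 with ⟨y1, y2⟩ | ⟨y1, y2⟩
    · -- i3 smallest: the middle is 5 or 6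
      exfalso
      rcases o56 with ⟨z1, z2⟩ | ⟨z1, z2⟩
      · -- i3 < i5 < i6 : middle 5
        have := middle (u := c - b) (v := b - a) hP0 hQ0 pcb pba
          (d56 i5 j6 (by omega) (by omega) (by omega) (by omega))
          (d35 i3 j5 (by omega) (by omega) (by omega) (by omega))
        rw [← h5] at this
        nlinarith
      · have := middle (u := c - b) (v := c - a) hP0 hQ0 pcb pca
          (d56 i6 j5 (by omega) (by omega) (by omega) (by omega))
          (d36 i3 j6 (by omega) (by omega) (by omega) (by omega))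
        rw [← h6] at this
        nlinarith
    · -- i6 < i3 < i5 : middle 3
      have := middle (u := b - a) (v := c - a) hP0 hQ0 pba pca
        (d35 i3 j5 (by omega) (by omega) (by omega) (by omega))
        (d36 i6 j3 (by omega) (by omega) (by omega) (by omega))
      rw [← h3] at this
      exact core hP hQ hPQ hQP hP1 hQ1 ha hab hbc hcd h1 h2 h3 h4 h5 h6 y1 x1 x2 y2
        (by nlinarith)
  · -- i5 < i3, j3 < j5
    rcases o36 with ⟨y1, y2⟩ | ⟨y1, y2⟩
    · -- i5 < i3 < i6 : middle 3, roles exchanged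
      have := middle (u := c - a) (v := b - a) hP0 hQ0 pca pba
        (d36 i3 j6 (by omega) (by omega) (by omega) (by omega))
        (d35 i5 j3 (by omega) (by omega) (by omega) (by omega))
      rw [← h3] at this
      exact core hQ hP hQP hPQ hQ1 hP1 ha hab hbc hcd (by rw [h1, mul_comm])
        (by rw [h2, mul_comm]) (by rw [h3, mul_comm]) (by rw [h4, mul_comm])
        (by rw [h5, mul_comm]) (by rw [h6, mul_comm]) y2 x2 x1 y1 (by nlinarith)
    · -- i3 largest
      exfalso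
      rcases o56 with ⟨z1, z2⟩ | ⟨z1, z2⟩
      · -- i5 < i6 < i3 : middle 6
        have := middle (u := c - a) (v := c - b) hP0 hQ0 pca pcb
          (d36 i6 j3 (by omega) (by omega) (by omega) (by omega))
          (d56 i5 j6 (by omega) (by omega) (by omega) (by omega))
        rw [← h6] at this
        nlinarith
      · -- i6 < i5 < i3 : middle 5
        have := middle (u := b - a) (v := c - b) hP0 hQ0 pba pcb
          (d35 i5 j3 (by omega) (by omega) (by omega) (by omega))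
          (d56 i6 j5 (by omega) (by omega) (by omega) (by omega))
        rw [← h5] at this
        nlinarith

/-- Natural number version: for distinct primes `p`, `q` there is no `{p, q}`-Diophantine
quadruple. -/
theorem no_quadruple_nat {p q : ℕ} (hp : p.Prime) (hq : q.Prime) (hpq : p ≠ q) {a b c d : ℕ}
    (ha : 0 < a) (hab : a < b) (hbc : b < c) (hcd : c < d)
    (h : ∀ x ∈ ({a, b, c, d} : Finset ℕ), ∀ y ∈ ({a, b, c, d} : Finset ℕ),
      x ≠ y → ∃ i j : ℕ, x * y + 1 = p ^ i * q ^ j) : False := by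
  obtain ⟨i1, j1, h1⟩ := h a (by simp) b (by simp) (by omega)
  obtain ⟨i2, j2, h2⟩ := h a (by simp) c (by simp) (by omega)
  obtain ⟨i3, j3, h3⟩ := h a (by simp) d (by simp) (by omega)
  obtain ⟨i4, j4, h4⟩ := h b (by simp) c (by simp) (by omega)
  obtain ⟨i5, j5, h5⟩ := h b (by simp) d (by simp) (by omega)
  obtain ⟨i6, j6, h6⟩ := h c (by simp) d (by simp) (by omega)
  have hP : Prime (p : ℤ) := Nat.prime_iff_prime_int.1 hp
  have hQ : Prime (q : ℤ) := Nat.prime_iff_prime_int.1 hq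
  have hPQ : ¬ (p : ℤ) ∣ q := by
    intro hd
    exact hpq ((Nat.prime_dvd_prime_iff_eq hp hq).1 (by exact_mod_cast hd))
  have hQP : ¬ (q : ℤ) ∣ p := by
    intro hd
    exact hpq ((Nat.prime_dvd_prime_iff_eq hq hp).1 (by exact_mod_cast hd)).symm
  exact no_quadruple hP hQ hPQ hQP (by exact_mod_cast hp.one_lt) (by exact_mod_cast hq.one_lt)
    (a := a) (b := b) (c := c) (d := d) (by exact_mod_cast ha) (by exact_mod_cast hab)
    (by exact_mod_cast hbc) (by exact_mod_cast hcd) (by exact_mod_cast h1) (by exact_mod_cast h2)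
    (by exact_mod_cast h3) (by exact_mod_cast h4) (by exact_mod_cast h5) (by exact_mod_cast h6)

end Pool.Agent.SDioph
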